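import Pool.Agent.H19Q.Reg
import Pool.Agent.H7.Bir.Open
import Pool.Agent.H13.CV.Strong

/-!
# Q Mod: the properties go down along modifications

`IsModification P P' G G' p`: `p : X' → X` is a surjective regular map with a rational inverse, and `U' = p⁻¹ U` for the open subsets `U = locVar P G` of
`X` and `U' = locVar P' G'` of `X'`.  `mod_open`: if `U'` has the properties of the conjecture and `U` is a surface of log general type, then `U` has
the properties.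
-/

set_option autoImplicit false

open Topology Filter MvPolynomial

noncomputable section

namespace Pool.Agent.H19Q

open Pool.Agent.H17 (PN VanishesAt HolomorphicInto puncturedDisc vanishesAt_mk_iff ZariskiClosedIn)
open Pool.Agent.H62.FC (Homog)
open Pool.Agent.H62.SA (locVar OnBd)
open Pool.Agent.H17LG.Variety (FunField IsLogGeneralType)
open Pool.Agent.H17EF (projVar)
open Pool.Agent.H7.Bir (vals rmap GGL GGLOpen exists_comp pn_identity)

variable {N M : ℕ}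

/-- Holomorphic maps which do not lie in the bad locus lift. -/
theorem exists_lift_inverse {P : Ideal (MvPolynomial (Fin (N + 1)) ℂ)} {P' : Ideal (MvPolynomial (Fin (M + 1)) ℂ)} {p : PN M → PN N}
    (hp : IsRegularOnto P P' p) {D : ℕ} {α : Fin (M + 1) → MvPolynomial (Fin (N + 1)) ℂ} (hα : ∀ i, (α i).IsHomogeneous D)
    (hinv : ∀ y ∈ projVar P', vals α (p y).rep ≠ 0 → rmap α (p y) = y) {f : ℂ → PN N} {U : Set ℂ} (hUo : IsOpen U)
    (hUc : IsPreconnected U) (hf : HolomorphicInto f U) (hfX : ∀ z ∈ U, f z ∈ projVar P) {z₀ : ℂ} (hz₀ : z₀ ∈ U)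
    {i₀ : Fin (M + 1)} (h : ¬ VanishesAt (α i₀) (f z₀)) :
    ∃ g : ℂ → PN M, HolomorphicInto g U ∧ (∀ z ∈ U, g z ∈ projVar P') ∧ ∀ z ∈ U, p (g z) = f z := by
  obtain ⟨g, hg, hg1, -⟩ := exists_comp hα hUo hUc hf hz₀ h
  have hpt : ∀ z ∈ U, vals α (f z).rep ≠ 0 → g z ∈ projVar P' ∧ p (g z) = f z := by
    intro z hz hv
    obtain ⟨y, hy, hyf⟩ := hp.surj (f z) (hfX z hz)
    have h1 := hinv y hy (by rw [hyf]; exact hv)
    rw [hg1 z hz hv, ← hyf, h1]
    exact ⟨hy, rfl⟩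
  have hev : ∀ᶠ z in 𝓝 z₀, vals α (f z).rep ≠ 0 := by
    obtain ⟨φ, hφ, he⟩ := hf z₀ hz₀
    have hcont : ContinuousAt (fun z => eval (φ z) (α i₀)) z₀ := by
      have h4 : AnalyticAt ℂ (fun w => MvPolynomial.aeval (φ w) (α i₀)) z₀ :=
        AnalyticAt.aeval_mvPolynomial (fun i => analyticAt_pi_iff.mp hφ i) _
      exact h4.continuousAt
    have h0 : eval (φ z₀) (α i₀) ≠ 0 := by
      obtain ⟨h4, h5⟩ := he.self_of_nhds
      rw [h5, vanishesAt_mk_iff (hα i₀)] at h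
      exact h
    filter_upwards [he, hcont.eventually_ne h0] with z h4 h5 h6
    obtain ⟨h7, h8⟩ := h4
    apply h5
    have h9 : VanishesAt (α i₀) (f z) := congrFun h6 i₀
    rw [h8, vanishesAt_mk_iff (hα i₀)] at h9
    exact h9
  have hX' : ∀ z ∈ U, g z ∈ projVar P' := by
    have h4 := Pool.Agent.H36.BP.vanish_identity hUc hg (S := {R | R ∈ P' ∧ ∃ n, R.IsHomogeneous n}) (fun R hR => hR.2) hz₀ (by
      filter_upwards [hev, hUo.mem_nhds hz₀] with z hz hzU R hR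
      obtain ⟨hRP, n, hRn⟩ := hR
      exact (hpt z hzU hz).1 R hRP n hRn)
    intro z hz R hR n hRn
    exact h4 z hz R ⟨hR, n, hRn⟩
  refine ⟨g, hg, hX', pn_identity hUc (hp.comp hUo hg hX') hf hz₀ ?_⟩
  filter_upwards [hev, hUo.mem_nhds hz₀] with z hz hzU
  exact (hpt z hzU hz).2

/-- A form which does not vanish on `U`, for a form which is not in `P`. -/
theorem exists_open_point {P : Ideal (MvPolynomial (Fin (N + 1)) ℂ)} [hPp : P.IsPrime] (hP : Homog P) {s : ℕ}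
    {G : Fin s → MvPolynomial (Fin (N + 1)) ℂ} (hG : ∀ m, ∃ n, (G m).IsHomogeneous n) (hne : (locVar P G).Nonempty)
    {T : MvPolynomial (Fin (N + 1)) ℂ} {n : ℕ} (hT : T.IsHomogeneous n) (hTP : T ∉ P) : ∃ x ∈ locVar P G, ¬ VanishesAt T x := by
  by_contra hcon
  push Not at hcon
  exact hTP (Pool.Agent.H7.Bir.mem_of_open hP hG hne hT hcon)

/-- **The properties go down along modifications.** -/
theorem mod_open {P : Ideal (MvPolynomial (Fin (N + 1)) ℂ)} [hPp : P.IsPrime] {P' : Ideal (MvPolynomial (Fin (M + 1)) ℂ)} [P'.IsPrime]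
    (hP : Homog P) (hP' : Homog P') (hz : ∃ z : Fin 2 → FunField P, IsTranscendenceBasis ℂ z)
    (hz' : ∃ z' : Fin 2 → FunField P', IsTranscendenceBasis ℂ z') {s s' : ℕ} {G : Fin s → MvPolynomial (Fin (N + 1)) ℂ}
    {G' : Fin s' → MvPolynomial (Fin (M + 1)) ℂ} (hG : ∀ m, ∃ n, (G m).IsHomogeneous n)
    {p : PN M → PN N} (hp : IsModification P P' G G' p) (hgt : IsLogGeneralType (OnBd P G (k := 2))) {Ξ' : Set (PN M)}
    (h : GGLOpen P' G' Ξ') : ∃ Ξ, GGLOpen P G Ξ := by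
  obtain ⟨D, α, hα, ⟨x₀, hx₀, hαx₀⟩, hinv⟩ := hp.inverse
  obtain ⟨i₀, hi₀⟩ : ∃ i, eval x₀.rep (α i) ≠ 0 := by
    by_contra hcon
    push Not at hcon
    exact hαx₀ (funext hcon)
  have hαP : α i₀ ∉ P := fun h1 => hi₀ (hx₀ _ h1 D (hα i₀))
  -- the form which vanishes on the exceptional set of `U'`
  obtain ⟨S', hS', hΞ'⟩ := h.closed
  obtain ⟨y₀, hy₀⟩ : (locVar P' G').Nonempty := by
    by_contra hcon
    rw [Set.not_nonempty_iff_eq_empty] at hcon
    apply h.proper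
    rw [hΞ', hcon]
    ext x
    exact ⟨fun hx => hx.1, fun hx => absurd hx (Set.notMem_empty x)⟩
  obtain ⟨R', hR'S, hR'⟩ : ∃ R' ∈ S', R' ∉ P' := by
    by_contra hcon
    push Not at hcon
    apply h.proper
    rw [hΞ']
    ext x
    refine ⟨fun hx => hx.1, fun hx => ⟨hx, fun R hR => ?_⟩⟩
    obtain ⟨n, hn⟩ := hS' R hR
    exact hx.1 R (hcon R hR) n hn
  obtain ⟨n', hn'⟩ := hS' R' hR'S
  obtain ⟨T, n, hT, hTP, hTp⟩ := hp.toIsRegularOnto.exists_image_form hP hP' (k := 1) hz hz' hn' hR'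
  have hne : (locVar P G).Nonempty := ⟨p y₀, (hp.inv y₀ hy₀.1).2 hy₀⟩
  have hTα : T * α i₀ ∉ P := fun h1 => (hPp.mem_or_mem h1).elim hTP hαP
  obtain ⟨Ξ, hΞ⟩ : ∃ Ξ : Set (PN N), Ξ = {x | x ∈ locVar P G ∧ ∀ Q ∈ ({T * α i₀} : Set (MvPolynomial (Fin (N + 1)) ℂ)), VanishesAt Q x} :=
    ⟨_, rfl⟩
  have hclΞ : ZariskiClosedIn (locVar P G) Ξ :=
    ⟨{T * α i₀}, fun Q hQ => ⟨n + D, by rw [Set.mem_singleton_iff.1 hQ]; exact hT.mul (hα i₀)⟩, hΞ⟩
  have hmemΞ : ∀ x ∈ locVar P G, x ∉ Ξ → ¬ VanishesAt T x ∧ ¬ VanishesAt (α i₀) x := by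
    intro x hx hxΞ
    have h1 : ¬ VanishesAt (T * α i₀) x := by
      intro h2
      apply hxΞ
      rw [hΞ]
      exact ⟨hx, fun Q hQ => by rw [Set.mem_singleton_iff.1 hQ]; exact h2⟩
    unfold VanishesAt at h1 ⊢
    rw [map_mul, mul_eq_zero, not_or] at h1
    exact h1
  have hbrody : ∀ f : ℂ → PN N, HolomorphicInto f Set.univ → (∀ z, f z ∈ locVar P G) → (∃ z w, f z ≠ f w) → ∀ z, f z ∈ Ξ := by
    intro f hf hfU hfn z₀
    by_contra hz₀
    obtain ⟨h1, h2⟩ := hmemΞ _ (hfU z₀) hz₀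
    obtain ⟨g, hg, hgX, hgf⟩ := exists_lift_inverse hp.toIsRegularOnto hα hinv isOpen_univ isPreconnected_univ hf
      (fun z _ => (hfU z).1) (Set.mem_univ z₀) h2
    have hgU : ∀ z, g z ∈ locVar P' G' := fun z => (hp.inv _ (hgX z trivial)).1 (by rw [hgf z trivial]; exact hfU z)
    have hgn : ∃ z w, g z ≠ g w := by
      obtain ⟨z, w, hzw⟩ := hfn
      refine ⟨z, w, fun h3 => hzw ?_⟩
      rw [← hgf z trivial, ← hgf w trivial, h3]
    have h3 := h.brody g hg hgU hgn z₀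
    rw [hΞ'] at h3
    apply h1
    rw [← hgf z₀ trivial]
    exact hTp _ (hgX z₀ trivial) (h3.2 R' hR'S)
  refine ⟨Ξ, hclΞ, ?_, ?_, ?_, hbrody, ?_⟩
  · intro heq
    obtain ⟨x, hx, hxT⟩ := exists_open_point hP hG hne (hT.mul (hα i₀)) hTα
    rw [← heq, hΞ] at hx
    exact hxT (hx.2 _ rfl)
  · intro k _ hk
    obtain ⟨z₁, hz₁⟩ := hz
    obtain ⟨z₂, hz₂⟩ := hk
    have h5 := hz₂.cardinalMk_eq_trdeg
    rw [← hz₁.cardinalMk_eq_trdeg, Cardinal.mk_fin, Cardinal.mk_fin] at h5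
    have h4 : k = 2 := by exact_mod_cast h5
    subst h4
    exact hgt
  · rintro f hf hfU ⟨z₀, hz₀, hfz₀⟩
    obtain ⟨h1, h2⟩ := hmemΞ _ (hfU z₀ hz₀) hfz₀
    obtain ⟨g, hg, hgX, hgf⟩ := exists_lift_inverse hp.toIsRegularOnto hα hinv Pool.Agent.H7.Bir.punctured_open
      Pool.Agent.H36.BP.preconnected_puncturedDisc hf (fun z hz => (hfU z hz).1) hz₀ h2
    have hgU : ∀ z ∈ puncturedDisc, g z ∈ locVar P' G' := fun z hz => (hp.inv _ (hgX z hz)).1 (by rw [hgf z hz]; exact hfU z hz)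
    obtain ⟨H, hH, hHg⟩ := h.picard g hg hgU ⟨z₀, hz₀, fun h3 => h1 (by
      rw [hΞ'] at h3
      rw [← hgf z₀ hz₀]
      exact hTp _ (hgX z₀ hz₀) (h3.2 R' hR'S))⟩
    have hHX : ∀ z ∈ Metric.ball (0 : ℂ) 1, H z ∈ projVar P' := by
      have h4 := Pool.Agent.H36.BP.vanish_identity (convex_ball (0 : ℂ) 1).isPreconnected hH
        (S := {R | R ∈ P' ∧ ∃ n, R.IsHomogeneous n}) (fun R hR => hR.2) (z₀ := z₀) hz₀.1 (by
          filter_upwards [Pool.Agent.H7.Bir.punctured_open.mem_nhds hz₀] with z hz R hR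
          obtain ⟨hRP, n, hRn⟩ := hR
          rw [hHg z hz]
          exact hgX z hz R hRP n hRn)
      intro z hz R hR n hRn
      exact h4 z hz R ⟨hR, n, hRn⟩
    exact ⟨fun z => p (H z), hp.toIsRegularOnto.comp Metric.isOpen_ball hH hHX, fun z hz => by
      show p (H z) = f z
      rw [hHg z hz, hgf z hz]⟩
  · exact fun Q _ hQ hPQ hsub k hk hz' => Pool.Agent.H13.CV.strongly_of_brodyL P hP hz hG hclΞ hgt hbrody Q hQ hPQ hsub k hk hz'

end Pool.Agent.H19Q
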