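import Pool.Agent.H19Q.ClassQ
import Pool.Agent.H19Q.Mod
import Pool.Agent.H7.Qup.Main
import Pool.Agent.H62.Qe.Main
import Pool.Agent.H62.Et.Final
import Pool.Agent.H19OL.Main

/-!
# Q Induct: the Green–Griffiths–Lang conjecture for the surfaces of the class `LogClass B`
-/

set_option autoImplicit false

open Topology Filter MvPolynomial

noncomputable section

namespace Pool.Agent.H19Q

open Pool.Agent.H17 (PN VanishesAt HolomorphicInto ZariskiClosedIn)
open Pool.Agent.H13.SM (conTan)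
open Pool.Agent.H62.FC (Homog)
open Pool.Agent.H62.SA (locVar OnBd)
open Pool.Agent.H17LG.Variety (FunField IsLogGeneralType)
open Pool.Agent.H17EF (projVar coneE GT exists_form_of_ne mk_mem_projVar)
open Pool.Agent.H7.Bir (GGL GGLOpen vals rmap mem_of_open)
open Pool.Agent.H7.Qup (IsDominantMap)
open Pool.Agent.H62.Qe (IsUnramifiedOver)
open Pool.Agent.H62.Et (GGLK)

variable {N M s s' : ℕ} {P : Ideal (MvPolynomial (Fin (N + 1)) ℂ)} {P' : Ideal (MvPolynomial (Fin (M + 1)) ℂ)}
  {G : Fin s → MvPolynomial (Fin (N + 1)) ℂ} {G' : Fin s' → MvPolynomial (Fin (M + 1)) ℂ} {p : PN M → PN N}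

/-- a surjective regular map restricts to a dominant regular map of open subsets -/
theorem IsRegularOnto.isDominantMap [P.IsPrime] (hp : IsRegularOnto P P' p) (hinv : ∀ y ∈ projVar P', p y ∈ locVar P G ↔ y ∈ locVar P' G')
    (hP : Homog P) (hG : ∀ m, ∃ n, (G m).IsHomogeneous n) (hne : (locVar P G).Nonempty) : IsDominantMap P P' G G' p := by
  refine ⟨fun y hy => (hinv y hy.1).2 hy, fun y hy => ?_, fun Q n hQ h => ?_⟩
  · obtain ⟨D, γ, h1, h2, h3⟩ := hp.regular y hy.1
    exact ⟨D, γ, h1, h2, fun y' hy' => h3 y' hy'.1⟩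
  · refine mem_of_open hP hG hne hQ fun x hx => ?_
    obtain ⟨y, hy, rfl⟩ := hp.surj x hx.1
    exact h y ((hinv y hy).1 hx)

/-- a covering is a surjective regular map -/
theorem regularOnto_of_unramified (hp : IsUnramifiedOver P P' G G' p) : IsRegularOnto P P' p := by
  refine ⟨hp.maps, hp.surj, fun y hy => ?_⟩
  obtain ⟨D, γ, hγ, hne, hrep, -⟩ := hp.regular y.rep y.rep_nonzero (by rw [Projectivization.mk_rep]; exact hy)
  refine ⟨D, γ, hγ, hne, fun y' hy' hv => ?_⟩
  have h1 := hrep y'.rep y'.rep_nonzero hv (by rw [Projectivization.mk_rep]; exact hy')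
  rw [Projectivization.mk_rep] at h1
  rw [h1]
  unfold Pool.Agent.H7.Bir.rmap
  rw [dif_pos hv]

/-- if some form is `1` there is no boundary -/
theorem onBd_projective (P : Ideal (MvPolynomial (Fin (N + 1)) ℂ)) [P.IsPrime] (h : ∃ m, G m = 1) (k : ℕ) :
    (OnBd P G (k := k)) = fun _ => False := by
  obtain ⟨m, hm⟩ := h
  funext E
  apply propext
  constructor
  · rintro ⟨j, -, -, h⟩
    have := h m
    rw [hm, map_one, E.ord.map_one] at this
    exact absurd this (lt_irrefl _)
  · exact False.elim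

theorem locVar_projective (h : ∃ m, G m = 1) : locVar P G = projVar P := by
  obtain ⟨m, hm⟩ := h
  ext x
  refine ⟨fun hx => hx.1, fun hx => ⟨hx, m, fun h1 => ?_⟩⟩
  unfold VanishesAt at h1
  rw [hm, map_one] at h1
  exact one_ne_zero h1

theorem QSurface.Projective.gt {U : QSurface} (hU : U.Projective) (h : U.LogGeneralType) : GT U.P 2 := by
  unfold QSurface.LogGeneralType at h
  rw [onBd_projective U.P hU 2] at h
  exact h

theorem QSurface.Projective.smooth {U : QSurface} (hU : U.Projective) (hs : U.Smooth) (y : Fin (U.N + 1) → ℂ) (hy : y ≠ 0)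
    (h : ∀ Q ∈ U.P, eval y Q = 0) : Module.finrank ℂ (conTan U.P y) ≤ 3 := by
  refine hs y hy ?_
  rw [locVar_projective hU]
  exact (mk_mem_projVar U.homog hy).2 ⟨hy, h⟩

theorem dim_congr {P P' : Ideal (MvPolynomial (Fin (N + 1)) ℂ)} [P.IsPrime] [P'.IsPrime] (h : P = P')
    (hz : ∃ z : Fin 2 → FunField P, IsTranscendenceBasis ℂ z) : ∃ z : Fin 2 → FunField P', IsTranscendenceBasis ℂ z := by
  subst h
  exact hz

theorem gt_congr {P P' : Ideal (MvPolynomial (Fin (N + 1)) ℂ)} [P.IsPrime] [P'.IsPrime] (h : P = P') (hP : GT P 2) : GT P' 2 := by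
  subst h
  exact hP

/-- **The conjecture for the surfaces of the class.** -/
theorem LogClass.main {B : QSurface → Prop} (hB : ∀ U, B U → U.LogGeneralType → ∃ Ξ, GGLOpen U.P U.G Ξ) {U : QSurface} (h : LogClass B U) :
    U.LogGeneralType → ∃ Ξ, GGLOpen U.P U.G Ξ := by
  induction h with
  | base U hU => exact hB U hU
  | dominant U U' p hp hgt' h ih =>
    intro _
    obtain ⟨Ξ, hΞ⟩ := ih hgt'
    exact Pool.Agent.H7.Qup.open_dominant U.homog U'.dim U.dim U'.form U.form hp hΞ
  | modification U U' p hp h ih =>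
    intro hgt
    have hgt' : U'.LogGeneralType := Pool.Agent.H7.Qup.logGT_up
      (hp.toIsRegularOnto.isDominantMap hp.inv U.homog U.form U.nonempty) U'.homog U.form U'.form U'.nonempty U.dim U'.dim hgt
    obtain ⟨Ξ, hΞ⟩ := ih hgt'
    exact mod_open U.homog U'.homog U.dim U'.dim U.form hp hgt hΞ
  | unramified U U' hs hs' p hp h ih =>
    intro hgt
    have hgt' : U'.LogGeneralType := Pool.Agent.H7.Qup.logGT_up
      ((regularOnto_of_unramified hp).isDominantMap hp.inv U.homog U.form U.nonempty) U'.homog U.form U'.form U'.nonempty U.dim U'.dim hgt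
    obtain ⟨Ξ, hΞ⟩ := ih hgt'
    exact Pool.Agent.H62.Qe.etale_open U.homog U'.homog U.dim U'.dim U.form hs hs' hp hgt hΞ
  | orbifold U U' hU hU' hs A B' d hA hB' hAB w hw R m hm Φ hR Θ hΘ e he he' ε hV h ih =>
    intro hgt
    have hsm := hU.smooth hs
    have hgtX := hU.gt hgt
    obtain ⟨z, hz⟩ := U.dim
    have hprime : (Pool.Agent.H19OL.fibreProduct U.P A B' R e ε).IsPrime := hV ▸ U'.prime
    have hdim := dim_congr hV U'.dim
    have hgt' := Pool.Agent.H19OL.gt_fib (k := 1) U.homog ⟨z, hz⟩ hgtX hA hB' hAB hR.onto hdim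
    obtain ⟨Ξ, hΞ⟩ := ih (by
      unfold QSurface.LogGeneralType
      rw [onBd_projective U'.P hU' 2]
      exact gt_congr hV.symm hgt')
    have hcl := hΞ.closed
    have hpr := hΞ.proper
    have hbr := hΞ.brody
    rw [locVar_projective hU', hV] at hcl hpr hbr
    obtain ⟨Ξ₁, hΞ₁⟩ := Pool.Agent.H19OL.ggl_of_cover U.homog hz hsm hgtX hA hB' hAB hm hR hΘ he hdim hcl hpr hbr
    exact ⟨_, Pool.Agent.H7.Bir.open_four U.homog U.form U.nonempty hΞ₁⟩

/-- For a smooth projective surface of the class the exceptional set is the closure of the union of the entire curves. -/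
theorem LogClass.gglk {B : QSurface → Prop} (hB : ∀ U, B U → U.LogGeneralType → ∃ Ξ, GGLOpen U.P U.G Ξ) {U : QSurface} (h : LogClass B U)
    (hgt : U.LogGeneralType) (hU : U.Projective) (hs : U.Smooth) : GGLK U.P := by
  obtain ⟨Ξ, hΞ⟩ := h.main hB hgt
  obtain ⟨z, hz⟩ := U.dim
  have hcl := hΞ.closed
  have hpr := hΞ.proper
  have hbr := hΞ.brody
  rw [locVar_projective hU] at hcl hpr hbr
  obtain ⟨S, n, hS, hSP, hSΞ⟩ := exists_form_of_ne hcl hpr
  exact Pool.Agent.H62.Et.ggl_of_orderTwo U.homog hz (hU.smooth hs) (hU.gt hgt) hS hSP fun f hf _ hfX hfn z => hSΞ _ (hbr f hf hfX hfn z)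

end Pool.Agent.H19Q
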