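import Pool.Agent.H19Q.Surf
import Pool.Agent.H7.Qup.Defs

/-!
# Q ClassQ: operations on quasi-projective surfaces
-/

set_option autoImplicit false

open MvPolynomial

noncomputable section

namespace Pool.Agent.H19Q

open Pool.Agent.H17 (PN HolomorphicInto)
open Pool.Agent.H17EF (projVar coneE)
open Pool.Agent.H92.TH (SymDiff)
open Pool.Agent.H19OL (IsOrbifoldCover IsPullback fibreProduct)

/-- `U` is projective (`U = X`). -/
def QSurface.Projective (U : QSurface) : Prop := ∃ m, U.G m = 1

/-- The smallest class of quasi-projective surfaces which contains the surfaces with the property `B` and has the following properties. -/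
inductive LogClass (B : QSurface → Prop) : QSurface → Prop
  /-- the basic surfaces -/
  | base (U : QSurface) (hU : B U) : LogClass B U
  /-- The class contains `U` if there is a dominant regular map `U → U'` and `U'` is in the class and of log general type. -/
  | dominant (U U' : QSurface) (p : PN U.N → PN U'.N) (hp : Pool.Agent.H7.Qup.IsDominantMap U'.P U.P U'.G U.G p) (hgt : U'.LogGeneralType)
      (h : LogClass B U') : LogClass B U
  /-- The class contains `U` if it contains a surface `U'` with a modification `U' → U`. -/
  | modification (U U' : QSurface) (p : PN U'.N → PN U.N) (hp : IsModification U.P U'.P U.G U'.G p) (h : LogClass B U') : LogClass B U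
  /-- The class contains the smooth surface `U` if it contains a smooth surface `U'` with a finite unramified covering `U' → U`. -/
  | unramified (U U' : QSurface) (hs : U.Smooth) (hs' : U'.Smooth) (p : PN U'.N → PN U.N)
      (hp : Pool.Agent.H62.Qe.IsUnramifiedOver U.P U'.P U.G U'.G p) (h : LogClass B U') : LogClass B U
  /-- The class contains the smooth projective surface `X` if there are a rational map `(A : B)` from `X` to `ℙ¹` and a holomorphic map `R` from an
  elliptic curve `ℂ / L` (embedded in `ℙ^r` by `e`) onto `ℙ¹` with `(R₀ R₁' - R₁ R₀') ^ m = Φ (R₀, R₁)` for a binary form `Φ` of degree `2 m`, such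
  that `(A dB - B dA) ^ m / Φ (A, B)` is a holomorphic symmetric differential `Θ` on `X`, and the class contains the fibre product of `X` and `ℂ / L`
  over `ℙ¹`, which is assumed to be irreducible. -/
  | orbifold {r : ℕ} (U U' : QSurface) (hU : U.Projective) (hU' : U'.Projective) (hs : U.Smooth)
      (A B' : MvPolynomial (Fin (U.N + 1)) ℂ) (d : ℕ) (hA : A.IsHomogeneous d) (hB : B'.IsHomogeneous d) (hAB : A ∉ U.P ∨ B' ∉ U.P)
      (w : Fin 2 → ℂ) (hw : LinearIndependent ℝ w) (R : ℂ ⧸ AddSubgroup.closure (Set.range w) → PN 1)
      (m : ℕ) (hm : 1 ≤ m) (Φ : MvPolynomial (Fin 2) ℂ) (hR : IsOrbifoldCover R m Φ)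
      (Θ : SymDiff (coneE U.P) m) (hΘ : IsPullback U.P A B' Θ Φ)
      (e : ℂ ⧸ AddSubgroup.closure (Set.range w) → PN r) (he : HolomorphicInto (fun z : ℂ => e z) Set.univ) (he' : Function.Injective e)
      (ε : Fin (U'.N + 1) ≃ Fin (U.N + 1) × Fin (r + 1)) (hV : U'.P = fibreProduct U.P A B' R e ε) (h : LogClass B U') : LogClass B U

end Pool.Agent.H19Q
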