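import Pool.Agent.H7.Bir.Map
import Pool.Agent.H62.SA.Defs
import Pool.Agent.H17EF.PNDefs

/-!
# Q Defs: surjective regular maps and modifications
-/

set_option autoImplicit false

open MvPolynomial

noncomputable section

namespace Pool.Agent.H19Q

open Pool.Agent.H17 (PN)
open Pool.Agent.H17EF (projVar)
open Pool.Agent.H62.SA (locVar)
open Pool.Agent.H7.Bir (vals rmap)

variable {N M : ℕ}

/-- `p` is a surjective regular map `X' → X` of projective varieties. -/
structure IsRegularOnto (P : Ideal (MvPolynomial (Fin (N + 1)) ℂ)) (P' : Ideal (MvPolynomial (Fin (M + 1)) ℂ)) (p : PN M → PN N) : Prop where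
  /-- `p` maps `X'` into `X` -/
  maps : ∀ y ∈ projVar P', p y ∈ projVar P
  /-- `p` maps `X'` onto `X` -/
  surj : ∀ x ∈ projVar P, ∃ y ∈ projVar P', p y = x
  /-- near every point of `X'` the map `p` is given by forms of the same degree -/
  regular : ∀ y ∈ projVar P', ∃ (D : ℕ) (γ : Fin (N + 1) → MvPolynomial (Fin (M + 1)) ℂ), (∀ i, (γ i).IsHomogeneous D) ∧
    vals γ y.rep ≠ 0 ∧ ∀ y' ∈ projVar P', vals γ y'.rep ≠ 0 → p y' = rmap γ y'

/-- `p : X' → X` is a surjective regular map of projective varieties which has a rational inverse, and `U' = p⁻¹ U`. -/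
structure IsModification (P : Ideal (MvPolynomial (Fin (N + 1)) ℂ)) (P' : Ideal (MvPolynomial (Fin (M + 1)) ℂ)) {s s' : ℕ}
    (G : Fin s → MvPolynomial (Fin (N + 1)) ℂ) (G' : Fin s' → MvPolynomial (Fin (M + 1)) ℂ) (p : PN M → PN N) : Prop
    extends IsRegularOnto P P' p where
  /-- `U' = p⁻¹ U` -/
  inv : ∀ y ∈ projVar P', p y ∈ locVar P G ↔ y ∈ locVar P' G'
  /-- the rational inverse of `p` -/
  inverse : ∃ (D : ℕ) (α : Fin (M + 1) → MvPolynomial (Fin (N + 1)) ℂ), (∀ i, (α i).IsHomogeneous D) ∧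
    (∃ x ∈ projVar P, vals α x.rep ≠ 0) ∧ ∀ y ∈ projVar P', vals α (p y).rep ≠ 0 → rmap α (p y) = y

end Pool.Agent.H19Q
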