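import Pool.Agent.H19Q.Defs
import Pool.Agent.H62.Qe.Defs
import Pool.Agent.H19OL.ClassDefs

/-!
# Q Surf: quasi-projective surfaces
-/

set_option autoImplicit false

open MvPolynomial

noncomputable section

namespace Pool.Agent.H19Q

open Pool.Agent.H17 (PN)
open Pool.Agent.H62.FC (Homog)
open Pool.Agent.H62.SA (locVar OnBd)
open Pool.Agent.H17LG.Variety (FunField IsLogGeneralType)
open Pool.Agent.H13.SM (conTan)

/-- A quasi-projective surface `U`: the nonempty set of the points of the irreducible projective surface `X` in `ℙ^N`, given by the homogeneous prime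
ideal `P`, at which some form `G m` does not vanish. -/
structure QSurface where
  /-- the dimension of the projective space -/
  N : ℕ
  /-- the ideal of `X` -/
  P : Ideal (MvPolynomial (Fin (N + 1)) ℂ)
  prime : P.IsPrime
  homog : Homog P
  dim : ∃ z : Fin 2 → FunField P, IsTranscendenceBasis ℂ z
  /-- the number of the forms -/
  s : ℕ
  /-- the forms -/
  G : Fin s → MvPolynomial (Fin (N + 1)) ℂ
  form : ∀ m, ∃ n, (G m).IsHomogeneous n
  nonempty : (locVar P G).Nonempty

attribute [instance] QSurface.prime

namespace QSurface

/-- `U` is of log general type. -/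
def LogGeneralType (U : QSurface) : Prop := IsLogGeneralType (K := FunField U.P) (k := 2) (OnBd U.P U.G)

/-- `U` is smooth. -/
def Smooth (U : QSurface) : Prop := ∀ (y : Fin (U.N + 1) → ℂ) (hy : y ≠ 0), Projectivization.mk ℂ y hy ∈ locVar U.P U.G →
  Module.finrank ℂ (conTan U.P y) ≤ 3

end QSurface

end Pool.Agent.H19Q
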